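import Pool.Agent.Lib.H97R.L2P
import Pool.Agent.Lib.H98TF.FunD4

/-!
# H97R, file Fun: the functor step of form D relative to a graph `R`, with the covering in the plane graph
-/

set_option autoImplicit false
set_option linter.unusedSectionVars false

namespace H97R

open Finset H98P H98Z H98M H63F H30F H63L H85TF LD H77D4 H98TF

variable {V : Type} [Fintype V] [DecidableEq V]

/-- THE FUNCTOR STEP OF FORM D RELATIVE TO `R`. -/
theorem formR {cross : Sym2 V → Sym2 V → Prop} (hsymm : ∀ e f, cross e f → cross f e)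
    (hHD : ∀ W, HD cross W) (h4 : 4 ≤ Fintype.card V) {R : Finset (Sym2 V)} (hR : R ⊆ LW univ) :
    ∃ G : Finset (Sym2 V), G ⊆ LW univ ∧ Plane cross G ∧ TC G ∧ 2 * Fintype.card V ≤ G.card + 3 ∧
      ((∃ F ⊆ G, R ⊆ F ∧ ¬ Disc univ F ∧ ∀ v, dg F v = 2) ∨
        (NoCut2 (G ∪ R) ∧ H75U.Cov4 G univ)) := by
  have hV : ∃ x y : V, x ≠ y := by
    obtain ⟨x, y, h⟩ := Fintype.exists_pair_of_one_lt_card (α := V) (by omega)
    exact ⟨x, y, h⟩
  obtain ⟨G, hGL, hGp, ⟨hT, hN⟩, hcard⟩ := exactX hsymm hHD hV
    (fun G W => Disc W G ∧ (TC G → UP (G ∪ R) G univ W ∨ X2 (G ∪ R) univ W))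
    (fun G => TC G ∧ ((∃ F ⊆ G, R ⊆ F ∧ ¬ Disc univ F ∧ ∀ v, dg F v = 2) ∨
      (NoCut2 (G ∪ R) ∧ H75U.Cov4 G univ)))
    (fun G G' hGG _ W hW => ⟨H85TF.disc_anti hGG hW.1, fun hT =>
      (hW.2 (tc_mono hGG hT)).imp (fun h => h.anti (union_subset_union_left hGG) hGG)
        (fun h => h.anti (union_subset_union_left hGG))⟩)
    (fun G W _ h => h.1)
    (fun G G' hGG _ h => ⟨tc_mono hGG h.1, h.2.imp (fun ⟨F, h1, h2⟩ => ⟨F, h1.trans hGG, h2⟩)
      (fun h => ⟨noCut2_mono (union_subset_union_left hGG) h.1, H75U.cov4_edges hGG h.2⟩)⟩)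
    (fun G hGL hno => by
      by_cases hT : TC G
      · have hY := tcy_of_tc (by omega) hGL hT
        have hE := tcy_of_tc (by omega) (union_subset hGL hR) (tc_mono subset_union_left hT)
        by_cases hU : UP (G ∪ R) G univ univ
        · refine ac_congr (fun t => ?_) (H30D.remove_univ
            (P := fun W => UP (G ∪ R) G univ W ∨ X2 (G ∪ R) univ W) (G := G) (fun M hM hMc => ?_) (Or.inl hU))
          · constructor
            · exact ch_mono fun W hW => ⟨hW.2, fun _ => hW.1⟩
            · exact ch_mono fun W hW => ⟨hW.2 hT, hW.1⟩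
          · exact l2up _ (G ∪ R) G univ M rfl hE hY subset_union_left (subset_univ M) hMc
              (hM.resolve_right fun h => hMc (H85TF.disc_anti subset_union_left (disc_of_x2 h)))
        · have hU' : ∀ W, ¬ UP (G ∪ R) G univ W := fun W h => hU (h.up (subset_univ W))
          have hcov : H75U.Cov4 G univ := by
            by_contra h
            refine hU (UP.base (by rw [card_univ]; exact h4) ?_)
            rw [univ_inter]
            exact h
          have hno' : ¬ ((∃ F ⊆ G, R ⊆ F ∧ ¬ Disc univ F ∧ ∀ v, dg F v = 2) ∨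
            (NoCut2 (G ∪ R) ∧ H75U.Cov4 G univ)) := fun h => hno ⟨hT, h⟩
          rw [not_or, not_and] at hno'
          have hsep : ∃ x y P Q, Sep (G ∪ R) univ x y P Q := by
            by_contra hcon
            push Not at hcon
            exact hno'.2 (noCut2_of_noSep hcon) hcov
          have hdeg : ¬ ∀ v, dg (G ∪ R) v = 2 := fun h => by
            have h1 := eq_of_two hY hE subset_union_left fun v _ => h v
            rw [← h1] at h
            exact hno'.1 ⟨G, Subset.rfl, union_eq_left.1 h1.symm, hT.1, h⟩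
          refine ac_congr (fun t => ?_) (H36R.L1_4 (G ∪ R) (union_subset hGL hR) hE hsep hdeg)
          constructor
          · exact ch_mono fun W hW => ⟨H85TF.disc_anti subset_union_left (disc_of_x2 hW), fun _ => Or.inr hW⟩
          · exact ch_mono fun W hW => (hW.2 hT).resolve_left (hU' W)
      · refine ac_congr (fun t => ?_) (H30D.ac_disc G (by
          by_contra hcon
          rw [not_or, not_exists] at hcon
          exact hT hcon))
        constructor
        · exact ch_mono fun W hW => ⟨hW, fun h => absurd h hT⟩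
        · exact ch_mono fun W hW => hW.1)
  exact ⟨G, hGL, hGp, hT, hcard, hN⟩

end H97R
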