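import Pool.Agent.Lib.H97R.Pair

/-!
# H97R, file L2P: the lower links for the pair version
-/

set_option autoImplicit false
set_option linter.unusedSectionVars false

namespace H97R

open Finset H98P H63F H98M H30F H85TF LD H75U H77D4 H36R

variable {V : Type} [Fintype V] [DecidableEq V]

/-- A 2-connected subgraph of a cycle is the cycle. -/
theorem eq_of_two {E G : Finset (Sym2 V)} {Y : Finset V} (hG : TCY G Y) (hE : TCY E Y) (hGE : G ⊆ E)
    (h2 : ∀ v ∈ Y, dg E v = 2) : G = E := by
  refine subset_antisymm hGE fun e he => ?_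
  obtain ⟨a, ha⟩ : ∃ a, a ∈ e := ⟨e.out.1, Sym2.out_fst_mem e⟩
  have haY := hE.sub e he a ha
  have h3 := LD59.two_le_deg hG haY
  have h4 : G.filter (fun f => a ∈ f) = E.filter fun f => a ∈ f :=
    eq_of_subset_of_card_le (filter_subset_filter _ hGE) (by
      have h5 := h2 a haY
      unfold dg at h3 h5
      omega)
  have h5 : e ∈ E.filter fun f => a ∈ f := mem_filter.2 ⟨he, ha⟩
  rw [← h4] at h5
  exact (mem_filter.1 h5).1

/-- (L2U). -/
theorem l2up (k : ℕ) :
    ∀ (E G : Finset (Sym2 V)) (Y M : Finset V), Y.card = k → TCY E Y → TCY G Y → G ⊆ E → M ⊆ Y → ¬ Disc M G →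
      UP E G Y M → AC (Ch fun W : Finset V => (UP E G Y W ∨ X2 E Y W) ∧ W ⊂ M) := by
  have hf := facts4 V
  induction k using Nat.strong_induction_on with
  | _ k ih =>
    intro E G Y M hk hT hTG hGE hMY hMG hU
    have hM : ¬ Disc M E := fun h => hMG (H85TF.disc_anti hGE h)
    by_cases hsep : ∃ x y P Q, Sep E Y x y P Q
    · by_cases h2 : ∀ v ∈ Y, dg E v = 2
      · exact absurd (u4_of_up hU (eq_of_two hTG hT hGE h2)) (hf.s9 E Y M hT h2)
      obtain ⟨x, y, P, Q, hs, hu⟩ := hf.s8 E Y hT hsep h2
      -- the reduction
      have hside : ∀ {P Q W : Finset V}, Sep E Y x y P Q → W ⊆ Y \ Q → UP E G Y W →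
          UP (red E Y x y Q) (red G Y x y Q) (Y \ Q) W := fun hs hW hU =>
        up_side hU hT hTG hGE hs hu (disjoint_left.2 fun _ ha => (mem_sdiff.1 (hW ha)).2)
      have hred : ∀ (P Q N : Finset V), Sep E Y x y P Q → N ⊆ Y \ Q → ¬ Disc N (red G Y x y Q) →
          UP E G Y N → AC (Ch fun W : Finset V => (UP E G Y W ∨ X2 E Y W) ∧ W ⊂ N) := by
        intro P Q N hs hN hNc hNU
        have h3 := ih (Y \ Q).card (by rw [← hk]; exact sep_card hs) (red E Y x y Q) (red G Y x y Q) (Y \ Q) N rfl
          (hf.s1 E Y x y P Q hT hs) (hf.s1 G Y x y P Q hTG (hs.anti hGE)) (red_mono hGE) hN hNc (hside hs hN hNU)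
        refine ac_congr (fun c => ?_) h3
        have e : (fun W : Finset V => (UP (red E Y x y Q) (red G Y x y Q) (Y \ Q) W ∨
            X2 (red E Y x y Q) (Y \ Q) W) ∧ W ⊂ N) = fun W : Finset V => (UP E G Y W ∨ X2 E Y W) ∧ W ⊂ N := by
          funext W
          refine propext ⟨?_, ?_⟩
          · rintro ⟨h4 | h4, h5⟩
            · exact ⟨Or.inl (UP.step hs h4), h5⟩
            · exact ⟨Or.inr ((hf.s7x E Y x y P Q W hT hu hs (h5.1.trans hN)).2 h4), h5⟩
          · rintro ⟨h4 | h4, h5⟩
            · exact ⟨Or.inl (hside hs (h5.1.trans hN) h4), h5⟩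
            · exact ⟨Or.inr ((hf.s7x E Y x y P Q W hT hu hs (h5.1.trans hN)).1 h4), h5⟩
        rw [e]
      by_cases hMQ : (M ∩ Q).Nonempty
      · by_cases hMP : (M ∩ P).Nonempty
        · -- both sides
          have hz : x ∈ M ∨ y ∈ M := by
            by_contra hcon
            push Not at hcon
            refine hM (x2_disc hT.sub ⟨x, y, P, Q, hs, hcon.1, hcon.2, ?_, ?_⟩)
            · obtain ⟨a, ha⟩ := hMP
              exact ⟨a, (mem_inter.1 ha).1, (mem_inter.1 ha).2⟩
            · obtain ⟨a, ha⟩ := hMQ
              exact ⟨a, (mem_inter.1 ha).1, (mem_inter.1 ha).2⟩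
          have hYQ : P ∪ {x, y} = Y \ Q := by
            rw [sep_sub hs]
            ext v
            simp only [mem_union, mem_insert, mem_singleton]
            tauto
          have hYP : Q ∪ {x, y} = Y \ P := by
            rw [sep_sub hs.symm]
            ext v
            simp only [mem_union, mem_insert, mem_singleton]
            tauto
          refine H30D.step_i (P := fun W => UP E G Y W ∨ X2 E Y W) (M := M) (Cc := P) (Dd := Q)
            (Z := {x, y}) hs.dis ?_ ?_ ?_ hMP hMQ ?_ ?_ ?_ ?_ ?_ ?_ ?_
          · rw [disjoint_left]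
            intro a ha hb
            simp only [mem_insert, mem_singleton] at hb
            rcases hb with rfl | rfl
            · exact hs.xP ha
            · exact hs.yP ha
          · rw [disjoint_left]
            intro a ha hb
            simp only [mem_insert, mem_singleton] at hb
            rcases hb with rfl | rfl
            · exact hs.xQ ha
            · exact hs.yQ ha
          · intro a ha
            have h1 := (sep_mem hs a).1 (hMY ha)
            simp only [mem_union, mem_insert, mem_singleton]
            tauto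
          · rcases hz with h1 | h1
            · exact ⟨x, mem_inter.2 ⟨h1, by simp⟩⟩
            · exact ⟨y, mem_inter.2 ⟨h1, by simp⟩⟩
          · intro W _ hWZ hWP hWQ
            rw [disjoint_left] at hWZ
            refine Or.inr ⟨x, y, P, Q, hs, fun h => hWZ h (by simp), fun h => hWZ h (by simp), ?_, ?_⟩
            · obtain ⟨a, ha⟩ := hWP
              exact ⟨a, (mem_inter.1 ha).1, (mem_inter.1 ha).2⟩
            · obtain ⟨a, ha⟩ := hWQ
              exact ⟨a, (mem_inter.1 ha).1, (mem_inter.1 ha).2⟩
          · rintro W hW (h1 | h1)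
            · refine up_two hGE hTG ?_ h1
              exact (card_le_card (inter_subset_left.trans hW)).trans card_le_two
            · exact unc_pair hu hW h1
          · intro W hWM hW hPW B hB
            rcases hPW with h1 | h1
            · exact Or.inl (h1.up subset_union_left)
            · exact Or.inr (hf.xadd E Y x y P Q W B hT hu hs (by rw [← hYQ]; exact hW) h1
                (hB.trans inter_subset_right))
          · intro W hWM hW hPW B hB
            rcases hPW with h1 | h1
            · exact Or.inl (h1.up subset_union_left)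
            · exact Or.inr (hf.xadd E Y x y Q P W B hT hu hs.symm (by rw [← hYP]; exact hW) h1
                (hB.trans inter_subset_right))
          · intro hP
            rw [hYQ] at hP ⊢
            have hc := red_conn' (hs.anti hGE) hMY hMG hMQ hz
            refine hred P Q _ hs inter_subset_right hc ?_
            rcases hP with h1 | h1
            · exact h1
            · exact absurd (H85TF.disc_anti (red_mono hGE) (x2_disc (hf.s1 E Y x y P Q hT hs).sub
                ((hf.s7x E Y x y P Q _ hT hu hs inter_subset_right).1 h1))) hc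
          · intro hP
            rw [hYP] at hP ⊢
            have hc := red_conn' (hs.symm.anti hGE) hMY hMG hMP hz
            refine hred Q P _ hs.symm inter_subset_right hc ?_
            rcases hP with h1 | h1
            · exact h1
            · exact absurd (H85TF.disc_anti (red_mono hGE) (x2_disc (hf.s1 E Y x y Q P hT hs.symm).sub
                ((hf.s7x E Y x y Q P _ hT hu hs.symm inter_subset_right).1 h1))) hc
        · -- inside `Y \ P`
          have hN : M ⊆ Y \ P := fun a ha => mem_sdiff.2 ⟨hMY ha, fun h =>
            hMP ⟨a, mem_inter.2 ⟨ha, h⟩⟩⟩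
          exact hred Q P M hs.symm hN (red_conn hN hMG) hU
      · have hN : M ⊆ Y \ Q := fun a ha => mem_sdiff.2 ⟨hMY ha, fun h =>
          hMQ ⟨a, mem_inter.2 ⟨ha, h⟩⟩⟩
        exact hred P Q M hs hN (red_conn hN hMG) hU
    · -- no separation
      have hno : ∀ x y P Q, ¬ Sep E Y x y P Q := fun x y P Q h => hsep ⟨x, y, P, Q, h⟩
      have h4 : 4 ≤ Y.card := (up_noSep hno hU).1
      have hiff : ∀ W, W ⊆ Y → (UP E G Y W ↔ ¬ Cov4 G W) := by
        intro W hW
        constructor
        · intro h
          have := (up_noSep hno h).2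
          rwa [inter_eq_left.2 hW] at this
        · intro h
          exact UP.base h4 (by rwa [inter_eq_left.2 hW])
      have h1 := base10_4 G Y M hTG h4 hMY hMG ((hiff M hMY).1 hU)
      refine ac_congr (fun c => ?_) h1
      have e : (fun W : Finset V => ¬ Cov4 G W ∧ W ⊂ M) =
          fun W : Finset V => (UP E G Y W ∨ X2 E Y W) ∧ W ⊂ M := by
        funext W
        refine propext ⟨?_, ?_⟩
        · rintro ⟨h2, h3⟩
          exact ⟨Or.inl ((hiff W (h3.1.trans hMY)).2 h2), h3⟩
        · rintro ⟨h2 | h2, h3⟩
          · exact ⟨(hiff W (h3.1.trans hMY)).1 h2, h3⟩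
          · obtain ⟨x, y, P, Q, hs, -⟩ := h2
            exact absurd hs (hno x y P Q)
      rw [e]


end H97R
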