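import Mathlib

set_option autoImplicit false

namespace H97R

/-- A 2-regular graph without triangles contains neither three edges at one vertex nor a triangle. -/
theorem no_ham {n : ℕ} {R F : SimpleGraph (Fin n)} (hRF : R ≤ F) (h2 : ∀ v, (F.neighborSet v).ncard = 2)
    (h4 : ∀ (v : Fin n) (c : F.Walk v v), c.IsCycle → 4 ≤ c.length) :
    ¬ ((∃ v, 3 ≤ (R.neighborSet v).ncard) ∨ ∃ a b c, R.Adj a b ∧ R.Adj b c ∧ R.Adj c a) := by
  rintro (⟨v, hv⟩ | ⟨a, b, c, h1, h3, h5⟩)
  · have h6 : (R.neighborSet v).ncard ≤ (F.neighborSet v).ncard :=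
      Set.ncard_le_ncard (fun w hw => hRF hw) (Set.toFinite _)
    rw [h2 v] at h6
    omega
  · have g1 : F.Adj a b := hRF h1
    have g3 : F.Adj b c := hRF h3
    have g5 : F.Adj c a := hRF h5
    have hcyc : (SimpleGraph.Walk.cons g1 (SimpleGraph.Walk.cons g3 (SimpleGraph.Walk.cons g5
        SimpleGraph.Walk.nil))).IsCycle := by
      rw [SimpleGraph.Walk.cons_isCycle_iff]
      refine ⟨?_, ?_⟩
      · rw [SimpleGraph.Walk.cons_isPath_iff, SimpleGraph.Walk.cons_isPath_iff]
        refine ⟨⟨SimpleGraph.Walk.IsPath.nil, ?_⟩, ?_⟩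
        · simpa using g5.ne
        · simp only [SimpleGraph.Walk.support_cons, SimpleGraph.Walk.support_nil, List.mem_cons,
            List.not_mem_nil, or_false, not_or]
          exact ⟨g3.ne, g1.ne.symm⟩
      · simp only [SimpleGraph.Walk.edges_cons, SimpleGraph.Walk.edges_nil, List.mem_cons,
          List.not_mem_nil, or_false, not_or]
        refine ⟨fun h => ?_, fun h => ?_⟩
        · rcases Sym2.eq_iff.1 h with ⟨h6, h7⟩ | ⟨h6, h7⟩
          · exact g1.ne h6
          · exact g5.ne h6.symm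
        · rcases Sym2.eq_iff.1 h with ⟨h6, h7⟩ | ⟨h6, h7⟩
          · exact g5.ne h6.symm
          · exact g3.ne h7
    have := h4 a _ hcyc
    simp at this

end H97R
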